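import Pool.Agent.H83.X.T2
import Pool.Agent.H85.LF.EN4

/-!
Theorem X, row PNT: a point of the system for the trigonometric polynomials.
-/

set_option autoImplicit false

open MeasureTheory ProbabilityTheory Filter Topology Finset
open scoped Nat ENNReal

namespace Pool.Agent.H26.X.PNT

open Pool.Agent.H83.X
open Pool.Agent.H24.AG (ee)
open Pool.Agent.H67.AG (Inv Av)

theorem pf (h : Pool.Agent.H40.AG.T_BK) : T_PNT := by
  classical
  intro Ω _ P _ T s F E q η hT hE hq hinv hap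
  obtain ⟨S, g, hirr, hge, hFg⟩ := hap.eig
  have mp : MeasurePreserving T P P := hT.toMeasurePreserving
  have hF := hap.meas
  have hFb := hap.bd
  -- properties along the orbit
  have orb : ∀ (Q : Ω → Prop), (∀ᵐ ω ∂P, Q ω) → ∀ᵐ ω ∂P, ∀ n : ℕ, Q (T^[n] ω) := by
    intro Q hQ
    rw [ae_all_iff]
    intro n
    exact (mp.iterate n).quasiMeasurePreserving.ae hQ
  have o1 := orb _ hinv
  have o2 : ∀ᵐ ω ∂P, ∀ n : ℕ, ∀ β ∈ S, g β (T (T^[n] ω)) = ee β * g β (T^[n] ω) := by
    have := (ae_ball_iff (Finset.countable_toSet S)).2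
      (fun β (hβ : β ∈ (S : Set ℝ)) => hge β (by simpa using hβ))
    exact orb (fun ω => ∀ β ∈ S, g β (T ω) = ee β * g β ω) (by simpa using this)
  have o3 := orb _ hFg
  -- ergodic averages
  set e0 : Ω → ℝ := E.indicator fun _ => (1 : ℝ) with he0
  have he0m : Measurable e0 := measurable_const.indicator hE
  have he0b : ∀ ω, 0 ≤ e0 ω ∧ e0 ω ≤ 1 := by
    intro ω
    rw [he0]
    by_cases hω : ω ∈ E
    · rw [Set.indicator_of_mem hω]; norm_num
    · rw [Set.indicator_of_notMem hω]; norm_num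
  have bk : ∀ f : Ω → ℝ, Measurable f → (∀ ω, |f ω| ≤ 1) → ∀ᵐ ω ∂P,
      Tendsto (fun n => Av T 1 n f ω) atTop (𝓝 (∫ ω, f ω ∂P)) := by
    intro f hf hb
    filter_upwards [h Ω P T 1 f mp hf ⟨1, hb⟩, Pool.Agent.H85.LF.condExp_erg hT f] with ω h1 h2
    rw [h2] at h1
    exact h1
  have o4 := bk e0 he0m (fun ω => by rw [abs_of_nonneg (he0b ω).1]; exact (he0b ω).2)
  have hprodm : ∀ n : ℕ, Measurable fun ω => e0 ω * F ω * F (T^[n] ω) := fun n =>
    (he0m.mul hF).mul (hF.comp (T.measurable.iterate n))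
  have hprodb : ∀ n ω, |e0 ω * F ω * F (T^[n] ω)| ≤ 1 := by
    intro n ω
    rw [abs_mul, abs_mul, abs_of_nonneg (he0b ω).1]
    have h1 := hFb ω
    have h2 := hFb (T^[n] ω)
    have h3 : e0 ω * |F ω| ≤ 1 := mul_le_one₀ (he0b ω).2 (abs_nonneg _) h1
    exact mul_le_one₀ h3 (abs_nonneg _) h2
  have o5 : ∀ᵐ ω ∂P, ∀ n : ℕ, Tendsto (fun N => Av T 1 N (fun ω => e0 ω * F ω * F (T^[n] ω)) ω)
      atTop (𝓝 (∫ ω, e0 ω * F ω * F (T^[n] ω) ∂P)) := by
    rw [ae_all_iff]
    intro n
    exact bk _ (hprodm n) (hprodb n)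
  obtain ⟨o, p1, p2, p3, p4, p5⟩ := (o1.and (o2.and (o3.and (o4.and o5)))).exists
  have hgn : ∀ β ∈ S, ∀ n : ℕ, g β (T^[n] o) = g β o * ee (n * β) := by
    intro β hβ n
    induction n with
    | zero => simp [ee_zero]
    | succ n ih =>
      rw [Function.iterate_succ_apply', p2 n β hβ, ih]
      have : ((n + 1 : ℕ) : ℝ) * β = n * β + β := by push_cast; ring
      rw [this, ee_add]
      ring
  have hFn : ∀ n : ℕ, ∑ β ∈ S, g β o * ee (n * β) = (F (T^[n] o) : ℂ) := by
    intro n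
    rw [p3 n]
    exact Finset.sum_congr rfl fun β hβ => (hgn β hβ n).symm
  have hre : ∀ n : ℕ, (∑ β ∈ S, g β o * ee (n * β)).re = F (T^[n] o) := by
    intro n
    rw [hFn n, Complex.ofReal_re]
  refine ⟨S, fun β => g β o, fun n => e0 (T^[n] o), hirr, fun n => ⟨F (T^[n] o), hFb _, hFn n⟩,
    fun n => ?_, fun n => ?_, ?_, fun n => ?_⟩
  · by_cases hω : T^[n] o ∈ E
    · right
      exact Set.indicator_of_mem hω _
    · left
      exact Set.indicator_of_notMem hω _
  · have h1 := p1 n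
    have h2 : T^[n + q] o = T^[q] (T^[n] o) := by
      rw [add_comm, Function.iterate_add_apply]
    change E.indicator (fun _ => (1 : ℝ)) (T^[n + q] o) = E.indicator (fun _ => (1 : ℝ)) (T^[n] o)
    rw [h2]
    by_cases hω : T^[n] o ∈ E
    · rw [Set.indicator_of_mem hω, Set.indicator_of_mem (h1.2 hω)]
    · rw [Set.indicator_of_notMem hω, Set.indicator_of_notMem fun hc => hω (h1.1 hc)]
  · have h1 : ∫ ω, e0 ω ∂P = P.real E := by
      rw [he0, integral_indicator hE]
      simp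
    rw [h1] at p4
    refine p4.congr fun N => ?_
    unfold Av
    simp only [one_mul]
  · have h1 : ∫ ω, e0 ω * F ω * F (T^[n] ω) ∂P = ∫ ω in E, F ω * F (T^[n] ω) ∂P := by
      rw [← integral_indicator hE]
      refine integral_congr_ae (ae_of_all _ fun ω => ?_)
      change E.indicator (fun _ => (1 : ℝ)) ω * F ω * F (T^[n] ω) =
        E.indicator (fun ω => F ω * F (T^[n] ω)) ω
      by_cases hω : ω ∈ E
      · rw [Set.indicator_of_mem hω, Set.indicator_of_mem hω, one_mul]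
      · rw [Set.indicator_of_notMem hω, Set.indicator_of_notMem hω, zero_mul, zero_mul]
    have h2 := p5 n
    rw [h1] at h2
    refine h2.congr fun N => ?_
    unfold Av
    congr 1
    refine Finset.sum_congr rfl fun m _ => ?_
    rw [hre m, hre (m + n), one_mul, add_comm m n, Function.iterate_add_apply]

end Pool.Agent.H26.X.PNT

theorem Pool.Agent.H26.X.pf_PNT (h : Pool.Agent.H40.AG.T_BK) : Pool.Agent.H83.X.T_PNT :=
  Pool.Agent.H26.X.PNT.pf h
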