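import Pool.Agent.H83.X.T3
import Pool.Agent.H40.LF.SDM

/-!
Theorem X, row XCI: the inequality on a component at a scale which decouples.
-/

set_option autoImplicit false

open MeasureTheory ProbabilityTheory Filter Topology Finset
open scoped Nat ENNReal

namespace Pool.Agent.H26.X.XCI

open Pool.Agent.H83.X
open Pool.Agent.H24.T2 (Pset)
open Pool.Agent.H67.AG (avgP)
open Pool.Agent.H28.LF (lt ng SS ptS LX Xi LY Yi shX shY lX lY btY flY xiY SysX SysY CompY LwY ExY
  Wa DcO)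
open Pool.Agent.H83.V (vl fz)
open Pool.Agent.H40.LF (meas_btY meas_flY meas_xiY meas_ExY meas_Wa meas_shY)

theorem vl_abs (z : Bool) (b : Bool × Bool) : |(vl z b : ℝ)| ≤ 1 := by
  unfold vl
  split_ifs <;> simp

theorem vl_ng (z : Bool) (b : Bool × Bool) : (vl z (ng b) : ℝ) = -(vl z b : ℝ) := by
  unfold vl ng
  rcases b with ⟨b1, b2⟩
  cases z <;> cases b1 <;> cases b2 <;> simp

theorem ng_ng (b : Bool × Bool) : ng (ng b) = b := by
  unfold ng
  simp

theorem vR_nn (R : ℕ) (b : ℕ → Bool) : 0 ≤ vR R b := by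
  unfold vR
  refine div_nonneg (sum_nonneg fun i _ => ?_) (Nat.cast_nonneg _)
  split_ifs <;> norm_num

theorem vR_le (R : ℕ) (b : ℕ → Bool) : vR R b ≤ 1 := by
  unfold vR
  refine div_le_one_of_le₀ ?_ (Nat.cast_nonneg _)
  refine (sum_le_sum (g := fun _ => (1 : ℝ)) fun i _ => ?_).trans (by simp)
  split_ifs <;> norm_num

theorem gX_abs (z : Bool) (h : ℕ) (ξ : Xi) : |gX z h ξ| ≤ 1 := by
  unfold gX
  rw [abs_mul]
  exact mul_le_one₀ (vl_abs z _) (abs_nonneg _) (vl_abs z _)

theorem meas_vl (z : Bool) : Measurable fun b : Bool × Bool => (vl z b : ℝ) :=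
  measurable_of_countable _

theorem meas_gX (z : Bool) (h : ℕ) : Measurable (gX z h) := by
  unfold gX
  exact ((meas_vl z).comp (measurable_fst.comp (measurable_pi_apply (1 : ℤ)))).mul
    ((meas_vl z).comp (measurable_fst.comp (measurable_pi_apply (1 + (h : ℤ)))))

/-- the product of the two values on the `y`-side -/
noncomputable def GG (z : Bool) (h p : ℕ) (ω : Yi) : ℝ :=
  (vl z (btY (shY^[p * (0 + 1)] ω)) : ℝ) * (vl z (btY (shY^[p * (h + 1)] ω)) : ℝ)

theorem meas_GG (z : Bool) (h p : ℕ) : Measurable (GG z h p) := by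
  unfold GG
  exact ((meas_vl z).comp (meas_btY.comp (meas_shY _))).mul
    ((meas_vl z).comp (meas_btY.comp (meas_shY _)))

theorem GG_abs (z : Bool) (h p : ℕ) (ω : Yi) : |GG z h p ω| ≤ 1 := by
  unfold GG
  rw [abs_mul]
  exact mul_le_one₀ (vl_abs z _) (abs_nonneg _) (vl_abs z _)

theorem int_of_bdd {ν : Measure Yi} [IsFiniteMeasure ν] {f : Yi → ℝ} (hf : Measurable f)
    {B : ℝ} (hb : ∀ ω, |f ω| ≤ B) : Integrable f ν :=
  Integrable.of_bound hf.aestronglyMeasurable B (ae_of_all _ fun ω => by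
    rw [Real.norm_eq_abs]; exact hb ω)

/-- the integral of the product on the `y`-side -/
theorem int_GG (z : Bool) (h p : ℕ) {ν : Measure Yi} (hν : CompY ν) :
    ∫ ω, GG z h p ω ∂ν = gC z ν (p * h) := by
  have := hν.prob
  have mp : MeasurePreserving (shY^[p]) ν ν := hν.erg.toMeasurePreserving.iterate p
  unfold gC
  set g : Yi → ℝ := fun ω => (vl z (btY ω) : ℝ) * (vl z (btY (shY^[p * h] ω)) : ℝ) with hg
  have hgm : Measurable g := ((meas_vl z).comp meas_btY).mul
    ((meas_vl z).comp (meas_btY.comp (meas_shY _)))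
  have h1 : ∫ ω, g ω ∂ν = ∫ ω, g (shY^[p] ω) ∂ν := by
    have h2 := integral_map (μ := ν) (mp.measurable.aemeasurable) (f := g)
      (hgm.aestronglyMeasurable)
    rw [mp.map_eq] at h2
    exact h2
  rw [h1]
  refine integral_congr_ae (ae_of_all _ fun ω => ?_)
  change GG z h p ω = (vl z (btY (shY^[p] ω)) : ℝ) * (vl z (btY (shY^[p * h] (shY^[p] ω))) : ℝ)
  have e1 : p * (0 + 1) = p := by ring
  have e2 : p * (h + 1) = p * h + p := by ring
  unfold GG
  rw [← Function.iterate_add_apply, e1, e2]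

theorem gC_abs (z : Bool) (n : ℕ) {ν : Measure Yi} (hν : CompY ν) : |gC z ν n| ≤ 1 := by
  have := hν.prob
  unfold gC
  refine (abs_integral_le_integral_abs).trans ?_
  have h2 : ∀ ω : Yi, |(vl z (btY ω) : ℝ) * (vl z (btY (shY^[n] ω)) : ℝ)| ≤ 1 := by
    intro ω
    rw [abs_mul]
    exact mul_le_one₀ (vl_abs z _) (abs_nonneg _) (vl_abs z _)
  have hm : Measurable fun ω : Yi => (vl z (btY ω) : ℝ) * (vl z (btY (shY^[n] ω)) : ℝ) :=
    ((meas_vl z).comp meas_btY).mul ((meas_vl z).comp (meas_btY.comp (meas_shY _)))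
  calc ∫ ω, |(vl z (btY ω) : ℝ) * (vl z (btY (shY^[n] ω)) : ℝ)| ∂ν
      ≤ ∫ _, (1 : ℝ) ∂ν := integral_mono (int_of_bdd hm h2).abs (integrable_const _) h2
    _ = 1 := by simp

/-- difference of the integrals of the product -/
theorem dec {z : Bool} {h p : ℕ} {θ : ℝ} {ν : Measure Yi} (hν : CompY ν)
    (hd : ∀ G : Set (Fin (h + 1) → Bool × Bool), |ν.real {ω | Wa shY btY (h + 1) p ω ∈ G} -
      p * ν.real (flY p ∩ {ω | Wa shY btY (h + 1) p ω ∈ G})| ≤ θ) :
    |∫ ω, GG z h p ω ∂ν - p * ∫ ω in flY p, GG z h p ω ∂ν| ≤ 2 * θ := by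
  have := hν.prob
  set val : (Fin (h + 1) → Bool × Bool) → ℤ := fun w =>
    vl z (w ⟨0, Nat.succ_pos h⟩) * vl z (w ⟨h, Nat.lt_succ_self h⟩) with hval
  have hGv : ∀ ω, GG z h p ω = (val (Wa shY btY (h + 1) p ω) : ℝ) := by
    intro ω
    rw [hval]
    unfold GG Wa
    push_cast
    rfl
  have hv3 : ∀ w, val w = 1 ∨ val w = -1 ∨ val w = 0 := by
    intro w
    change vl z (w ⟨0, Nat.succ_pos h⟩) * vl z (w ⟨h, Nat.lt_succ_self h⟩) = 1 ∨
      vl z (w ⟨0, Nat.succ_pos h⟩) * vl z (w ⟨h, Nat.lt_succ_self h⟩) = -1 ∨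
      vl z (w ⟨0, Nat.succ_pos h⟩) * vl z (w ⟨h, Nat.lt_succ_self h⟩) = 0
    have h1 : ∀ b, vl z b = 1 ∨ vl z b = -1 ∨ vl z b = 0 := by
      intro b
      unfold vl
      split_ifs <;> simp
    rcases h1 (w ⟨0, Nat.succ_pos h⟩) with a | a | a <;>
      rcases h1 (w ⟨h, Nat.lt_succ_self h⟩) with b | b | b <;> rw [a, b] <;> norm_num
  set S1 : Set Yi := {ω | Wa shY btY (h + 1) p ω ∈ {w | val w = 1}} with hS1
  set S2 : Set Yi := {ω | Wa shY btY (h + 1) p ω ∈ {w | val w = -1}} with hS2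
  have m1 : MeasurableSet S1 := meas_Wa (h + 1) p (Set.to_countable _).measurableSet
  have m2 : MeasurableSet S2 := meas_Wa (h + 1) p (Set.to_countable _).measurableSet
  have hG2 : GG z h p = fun ω => S1.indicator (fun _ => (1 : ℝ)) ω -
      S2.indicator (fun _ => (1 : ℝ)) ω := by
    funext ω
    rw [hGv ω]
    rcases hv3 (Wa shY btY (h + 1) p ω) with a | a | a
    · have c1 : ω ∈ S1 := a
      have c2 : ω ∉ S2 := fun hc => by
        have hc' : val (Wa shY btY (h + 1) p ω) = -1 := hc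
        rw [a] at hc'
        norm_num at hc'
      rw [a, Set.indicator_of_mem c1, Set.indicator_of_notMem c2]
      norm_num
    · have c2 : ω ∈ S2 := a
      have c1 : ω ∉ S1 := fun hc => by
        have hc' : val (Wa shY btY (h + 1) p ω) = 1 := hc
        rw [a] at hc'
        norm_num at hc'
      rw [a, Set.indicator_of_mem c2, Set.indicator_of_notMem c1]
      norm_num
    · have c1 : ω ∉ S1 := fun hc => by
        have hc' : val (Wa shY btY (h + 1) p ω) = 1 := hc
        rw [a] at hc'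
        norm_num at hc'
      have c2 : ω ∉ S2 := fun hc => by
        have hc' : val (Wa shY btY (h + 1) p ω) = -1 := hc
        rw [a] at hc'
        norm_num at hc'
      rw [a, Set.indicator_of_notMem c2, Set.indicator_of_notMem c1]
      norm_num
  have i1 : Integrable (S1.indicator fun _ => (1 : ℝ)) ν := (integrable_const _).indicator m1
  have i2 : Integrable (S2.indicator fun _ => (1 : ℝ)) ν := (integrable_const _).indicator m2
  have e1 : ∫ ω, GG z h p ω ∂ν = ν.real S1 - ν.real S2 := by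
    rw [hG2, integral_sub i1 i2, integral_indicator m1, integral_indicator m2]
    simp
  have e2 : ∫ ω in flY p, GG z h p ω ∂ν = ν.real (flY p ∩ S1) - ν.real (flY p ∩ S2) := by
    rw [hG2, integral_sub i1.integrableOn i2.integrableOn, integral_indicator m1,
      integral_indicator m2, Measure.restrict_restrict m1, Measure.restrict_restrict m2,
      Set.inter_comm S1, Set.inter_comm S2]
    simp
  rw [e1, e2]
  have d1 := abs_le.1 (hd {w | val w = 1})
  have d2 := abs_le.1 (hd {w | val w = -1})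
  rw [abs_le]
  constructor <;> nlinarith [d1.1, d1.2, d2.1, d2.2]

variable {z : Bool} {h R L : ℕ} {Φ : ℝ → ℝ} {c η θ B : ℝ} {a b : Fin L → ℝ} {F : Fin L → Set Xi}
  {ν : Measure Yi} {lb : ℕ → Bool}

/-- the value of the `n`-side in terms of one line -/
theorem term_eq (h1 : Pool.Agent.H28.LF.T_DVS) (h2 : Pool.Agent.H28.LF.T_THC)
    (hF : PtX F) (hν : CompY ν) {p : ℕ} (hp : p.Prime)
    (hlb : ∀ᵐ ω ∂ν, (xiY p ω 0).2 = lb) : ∃ l₀ : Fin L,
    ∑ l, (p : ℝ) * ∫ ω in flY p ∩ xiY p ⁻¹' (F l), fL z h R c a b l (xiY p ω) ∂ν =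
      vR R lb * (a l₀ * (p * ∫ ω in flY p, gX z h (xiY p ω) ∂ν) + (b l₀ - c)) := by
  classical
  have := hν.prob
  have hm : ∀ l, MeasurableSet (xiY p ⁻¹' (F l)) := fun l => meas_xiY p (hF.meas l)
  have h01 : ∀ l, ν.real (xiY p ⁻¹' (F l)) = 0 ∨ ν.real (xiY p ⁻¹' (F l)) = 1 := fun l =>
    (h2 ν (F l) hν (hF.meas l) (hF.inv l) p hp).2
  have hex : ∃ l₀, ν.real (xiY p ⁻¹' (F l₀)) = 1 := by
    by_contra hcon
    push Not at hcon
    have hz : ∀ l, ν (xiY p ⁻¹' (F l)) = 0 := by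
      intro l
      have h3 := (h01 l).resolve_right (hcon l)
      rwa [measureReal_eq_zero_iff] at h3
    have hu : ν Set.univ = 0 := by
      have h4 : (Set.univ : Set Yi) ⊆ ⋃ l, xiY p ⁻¹' (F l) := by
        intro ω _
        obtain ⟨l, hl, _⟩ := hF.par (xiY p ω)
        exact Set.mem_iUnion.2 ⟨l, hl⟩
      exact measure_mono_null h4 (measure_iUnion_null hz)
    rw [measure_univ] at hu
    exact one_ne_zero hu
  obtain ⟨l₀, hl₀⟩ := hex
  have hae : ∀ᵐ ω ∂ν, xiY p ω ∈ F l₀ := by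
    have h5 : ν (xiY p ⁻¹' (F l₀))ᶜ = 0 := by
      rw [← measureReal_eq_zero_iff, probReal_compl_eq_one_sub (hm l₀), hl₀, sub_self]
    exact h5
  refine ⟨l₀, ?_⟩
  have hoth : ∀ l, l ≠ l₀ → ∫ ω in flY p ∩ xiY p ⁻¹' (F l), fL z h R c a b l (xiY p ω) ∂ν = 0 := by
    intro l hl
    have h6 : ν (flY p ∩ xiY p ⁻¹' (F l)) = 0 := by
      refine measure_mono_null Set.inter_subset_right ?_
      have h7 : ∀ᵐ ω ∂ν, ¬ (xiY p ω ∈ F l) := by
        filter_upwards [hae] with ω hω hω'
        obtain ⟨l', _, hu⟩ := hF.par (xiY p ω)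
        exact hl ((hu l hω').trans (hu l₀ hω).symm)
      have h8 := ae_iff.1 h7
      simp only [not_not] at h8
      exact h8
    rw [Measure.restrict_eq_zero.2 h6, integral_zero_measure]
  rw [Finset.sum_eq_single l₀ (fun l _ hl => by rw [hoth l hl, mul_zero])
    (fun hc => absurd (Finset.mem_univ _) hc)]
  have h9 : ∫ ω in flY p ∩ xiY p ⁻¹' (F l₀), fL z h R c a b l₀ (xiY p ω) ∂ν =
      ∫ ω in flY p, vR R lb * (a l₀ * gX z h (xiY p ω) + (b l₀ - c)) ∂ν := by
    have hseteq : (flY p ∩ xiY p ⁻¹' (F l₀) : Set Yi) =ᵐ[ν] flY p := by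
      refine Filter.Eventually.set_eq ?_
      filter_upwards [hae] with ω hω
      simp only [Set.mem_inter_iff, Set.mem_preimage]
      exact ⟨fun hq => hq.1, fun hq => ⟨hq, hω⟩⟩
    rw [setIntegral_congr_set hseteq]
    refine integral_congr_ae (ae_restrict_of_ae ?_)
    filter_upwards [hlb] with ω hω
    unfold fL
    rw [hω]
    ring
  rw [h9, integral_const_mul]
  have ig : Integrable (fun ω => a l₀ * gX z h (xiY p ω)) (ν.restrict (flY p)) :=
    ((int_of_bdd ((meas_gX z h).comp (meas_xiY p)) (fun ω => gX_abs z h _)).const_mul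
      _).integrableOn
  rw [integral_add ig (integrable_const _), integral_const_mul]
  have hdiv := (h1 ν hν).1 p hp.pos
  have hp0 : (0 : ℝ) < p := by exact_mod_cast hp.pos
  have h10 : ∫ _ω in flY p, (b l₀ - c) ∂ν = (1 / p) * (b l₀ - c) := by
    rw [setIntegral_const, hdiv, smul_eq_mul]
  rw [h10]
  field_simp

/-- the product of the `n`-side and of the `y`-side -/
theorem cmp (hν : CompY ν) (p : ℕ) :
    |∫ ω in flY p, gX z h (xiY p ω) ∂ν - ∫ ω in flY p, GG z h p ω ∂ν| ≤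
      2 * ν.real (flY p ∩ (ExY p 1 ∪ ExY p (h + 1))) := by
  have := hν.prob
  set X : Set Yi := ExY p 1 ∪ ExY p (h + 1) with hX
  have hXm : MeasurableSet X := (meas_ExY p 1).union (meas_ExY p (h + 1))
  have g1 : Integrable (fun ω => gX z h (xiY p ω)) ν :=
    int_of_bdd ((meas_gX z h).comp (meas_xiY p)) (fun ω => gX_abs z h _)
  have g2 : Integrable (GG z h p) ν := int_of_bdd (meas_GG z h p) (GG_abs z h p)
  rw [← integral_sub g1.integrableOn g2.integrableOn]
  have hpt : ∀ ω, |gX z h (xiY p ω) - GG z h p ω| ≤ X.indicator (fun _ => (2 : ℝ)) ω := by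
    intro ω
    by_cases hω : ω ∈ X
    · rw [Set.indicator_of_mem hω]
      have a1 := abs_le.1 (gX_abs z h (xiY p ω))
      have a2 := abs_le.1 (GG_abs z h p ω)
      rw [abs_le]
      constructor <;> linarith [a1.1, a1.2, a2.1, a2.2]
    · rw [Set.indicator_of_notMem hω]
      have b1 : btY (shY^[p * 1] ω) = ng (xiY p ω ((1 : ℕ) : ℤ)).1 := by
        by_contra hc
        exact hω (Or.inl hc)
      have b2 : btY (shY^[p * (h + 1)] ω) = ng (xiY p ω ((h + 1 : ℕ) : ℤ)).1 := by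
        by_contra hc
        exact hω (Or.inr hc)
      have b3 : gX z h (xiY p ω) = GG z h p ω := by
        unfold gX GG
        rw [zero_add, b1, b2, vl_ng, vl_ng]
        push_cast
        rw [add_comm (h : ℤ) 1]
        ring
      rw [b3, sub_self, abs_zero]
  calc |∫ ω in flY p, (gX z h (xiY p ω) - GG z h p ω) ∂ν|
      ≤ ∫ ω in flY p, |gX z h (xiY p ω) - GG z h p ω| ∂ν := abs_integral_le_integral_abs
    _ ≤ ∫ ω in flY p, X.indicator (fun _ => (2 : ℝ)) ω ∂ν := by
        refine integral_mono (g1.sub g2).abs.integrableOn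
          ((integrable_const _).indicator hXm).integrableOn hpt
    _ = 2 * ν.real (flY p ∩ X) := by
        rw [integral_indicator hXm, Measure.restrict_restrict hXm, setIntegral_const, smul_eq_mul,
          Set.inter_comm, mul_comm]

theorem pf (h1 : Pool.Agent.H28.LF.T_DVS) (h2 : Pool.Agent.H28.LF.T_THC) : T_XCI := by
  classical
  intro z h R L m Φ c η θ B a b F ν lb hR hθ hlin hF hab hΦB hν hlb hne hdc
  have := hν.prob
  obtain ⟨X, hXc, hXd⟩ := hdc
  have hB : 0 ≤ B := (by positivity : 0 ≤ |Φ 0| + |c|).trans (hΦB 0 (by simp))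
  have hprime : ∀ p ∈ Pset 2 m, p.Prime := fun p hp => (mem_filter.1 hp).2.1
  set tm : ℕ → ℝ := fun p => ∑ l, p * ∫ ω in flY p ∩ xiY p ⁻¹' (F l),
    fL z h R c a b l (xiY p ω) ∂ν with htm
  set gl : ℕ → ℝ := fun p => vR R (lb p) * (Φ (gC z ν (p * h)) - c) with hgl
  set ex : ℕ → ℝ := fun p => p * ν.real (flY p ∩ (ExY p 1 ∪ ExY p (h + 1))) with hex
  have hex0 : ∀ p, 0 ≤ ex p := fun p => by rw [hex]; positivity
  have key : ∀ p ∈ Pset 2 m, tm p ≤ gl p + 2 * B * θ + 2 * B * ex p +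
      (if p ∈ X then 2 * B else 0) := by
    intro p hp
    have hpp := hprime p hp
    have hp0 : (0 : ℝ) < p := by exact_mod_cast hpp.pos
    obtain ⟨l₀, hl₀⟩ := term_eq (z := z) (h := h) (R := R) (c := c) (a := a) (b := b) h1 h2 hF hν
      hpp (hlb p hpp)
    have v0 := vR_nn R (lb p)
    have v1 := vR_le R (lb p)
    have hgC := gC_abs z (p * h) hν
    have hA := hab l₀
    have ha : |a l₀| ≤ B := by
      have h3 := abs_nonneg (b l₀)
      have h4 := abs_nonneg c
      linarith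
    have hdiv := (h1 ν hν).1 p hpp.pos
    change tm p = _ at hl₀
    rw [hl₀]
    by_cases hpX : p ∈ X
    · rw [if_pos hpX]
      -- trivial bounds
      have t1 : |(p : ℝ) * ∫ ω in flY p, gX z h (xiY p ω) ∂ν| ≤ 1 := by
        rw [abs_mul, abs_of_pos hp0]
        have t2 : |∫ ω in flY p, gX z h (xiY p ω) ∂ν| ≤ 1 / p := by
          rw [← hdiv]
          have := norm_setIntegral_le_of_norm_le_const (μ := ν) (s := flY p)
            (f := fun ω => gX z h (xiY p ω)) (C := 1) (measure_lt_top _ _)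
            (fun ω _ => by rw [Real.norm_eq_abs]; exact gX_abs z h _)
          rw [Real.norm_eq_abs, one_mul] at this
          exact this
        calc (p : ℝ) * |∫ ω in flY p, gX z h (xiY p ω) ∂ν| ≤ p * (1 / p) :=
              mul_le_mul_of_nonneg_left t2 hp0.le
          _ = 1 := by field_simp
      set G := (p : ℝ) * ∫ ω in flY p, gX z h (xiY p ω) ∂ν
      have t3 : a l₀ * G ≤ |a l₀| := by
        calc a l₀ * G ≤ |a l₀ * G| := le_abs_self _
          _ = |a l₀| * |G| := abs_mul _ _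
          _ ≤ |a l₀| * 1 := mul_le_mul_of_nonneg_left t1 (abs_nonneg _)
          _ = _ := mul_one _
      have t4 : a l₀ * G + (b l₀ - c) ≤ B := by
        have h3 := le_abs_self (b l₀)
        have h4 := neg_abs_le c
        linarith
      have t5 : vR R (lb p) * (a l₀ * G + (b l₀ - c)) ≤ B := by
        calc vR R (lb p) * (a l₀ * G + (b l₀ - c)) ≤ vR R (lb p) * B :=
              mul_le_mul_of_nonneg_left t4 v0
          _ ≤ 1 * B := mul_le_mul_of_nonneg_right v1 hB
          _ = B := one_mul _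
      have t6 : -B ≤ gl p := by
        have h3 := hΦB _ hgC
        have h4 := neg_abs_le (Φ (gC z ν (p * h)))
        have h5 := le_abs_self c
        have h6 : -B ≤ Φ (gC z ν (p * h)) - c := by linarith
        change -B ≤ vR R (lb p) * (Φ (gC z ν (p * h)) - c)
        have h7 : vR R (lb p) * (-B) ≤ vR R (lb p) * (Φ (gC z ν (p * h)) - c) :=
          mul_le_mul_of_nonneg_left h6 v0
        have h8 : vR R (lb p) * B ≤ 1 * B := mul_le_mul_of_nonneg_right v1 hB
        linarith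
      have t7 : 0 ≤ 2 * B * θ := by positivity
      have t8 : 0 ≤ 2 * B * ex p := mul_nonneg (by positivity) (hex0 p)
      linarith
    · rw [if_neg hpX, add_zero]
      have t1 := dec (z := z) (h := h) (p := p) hν (hXd p hp hpX)
      rw [int_GG z h p hν] at t1
      have t2 := cmp (z := z) (h := h) hν p
      set G1 := ∫ ω in flY p, gX z h (xiY p ω) ∂ν
      set G2 := ∫ ω in flY p, GG z h p ω ∂ν
      have t3 : |(p : ℝ) * G1 - gC z ν (p * h)| ≤ 2 * θ + 2 * ex p := by
        have e1 : (p : ℝ) * G1 - gC z ν (p * h) = p * (G1 - G2) - (gC z ν (p * h) - p * G2) := by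
          ring
        have e2 : |(p : ℝ) * (G1 - G2)| ≤ 2 * ex p := by
          rw [abs_mul, abs_of_pos hp0]
          calc (p : ℝ) * |G1 - G2| ≤ p * (2 * ν.real (flY p ∩ (ExY p 1 ∪ ExY p (h + 1)))) :=
                mul_le_mul_of_nonneg_left t2 hp0.le
            _ = 2 * ex p := by rw [hex]; ring
        rw [e1]
        calc |(p : ℝ) * (G1 - G2) - (gC z ν (p * h) - p * G2)|
            ≤ |(p : ℝ) * (G1 - G2)| + |gC z ν (p * h) - p * G2| := abs_sub _ _
          _ ≤ 2 * ex p + 2 * θ := add_le_add e2 t1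
          _ = _ := by ring
      have t4 : a l₀ * (p * G1) ≤ a l₀ * gC z ν (p * h) + B * (2 * θ + 2 * ex p) := by
        have e1 : a l₀ * ((p : ℝ) * G1 - gC z ν (p * h)) ≤ B * (2 * θ + 2 * ex p) := by
          calc a l₀ * ((p : ℝ) * G1 - gC z ν (p * h)) ≤ |a l₀ * ((p : ℝ) * G1 - gC z ν (p * h))| :=
                le_abs_self _
            _ = |a l₀| * |(p : ℝ) * G1 - gC z ν (p * h)| := abs_mul _ _
            _ ≤ B * (2 * θ + 2 * ex p) := mul_le_mul ha t3 (abs_nonneg _) hB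
        linarith
      have t5 := hlin.le l₀ _ hgC
      have t6 : a l₀ * (p * G1) + (b l₀ - c) ≤ (Φ (gC z ν (p * h)) - c) +
          B * (2 * θ + 2 * ex p) := by linarith
      have t7 := mul_le_mul_of_nonneg_left t6 v0
      have t8 : vR R (lb p) * (B * (2 * θ + 2 * ex p)) ≤ B * (2 * θ + 2 * ex p) := by
        have e3 : 0 ≤ B * (2 * θ + 2 * ex p) := mul_nonneg hB (by have := hex0 p; positivity)
        calc vR R (lb p) * (B * (2 * θ + 2 * ex p)) ≤ 1 * (B * (2 * θ + 2 * ex p)) :=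
              mul_le_mul_of_nonneg_right v1 e3
          _ = _ := one_mul _
      change _ ≤ vR R (lb p) * (Φ (gC z ν (p * h)) - c) + 2 * B * θ + 2 * B * ex p
      rw [mul_add] at t7
      linarith
  -- average
  have hcard : (0 : ℝ) < ((Pset 2 m).card : ℝ) := by exact_mod_cast hne.card_pos
  have s1 := sum_le_sum key
  rw [sum_add_distrib, sum_add_distrib, sum_add_distrib, sum_const, ← mul_sum, nsmul_eq_mul,
    ← sum_filter, sum_const, nsmul_eq_mul] at s1
  have s2 : (((Pset 2 m).filter fun p => p ∈ X).card : ℝ) ≤ θ * (Pset 2 m).card := by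
    refine le_trans ?_ hXc
    exact_mod_cast card_le_card fun p hp => (mem_filter.1 hp).2
  have s3 : (((Pset 2 m).filter fun p => p ∈ X).card : ℝ) * (2 * B) ≤
      (θ * (Pset 2 m).card) * (2 * B) := mul_le_mul_of_nonneg_right s2 (by positivity)
  change avgP 2 m tm ≤ avgP 2 m gl + 4 * B * θ + 4 * B * avgP 2 m ex
  unfold avgP
  have s4 : 0 ≤ ∑ p ∈ Pset 2 m, ex p := sum_nonneg fun p _ => hex0 p
  rw [div_le_iff₀ hcard]
  have s5 : ((∑ p ∈ Pset 2 m, gl p) / ((Pset 2 m).card : ℝ) + 4 * B * θ +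
      4 * B * ((∑ p ∈ Pset 2 m, ex p) / ((Pset 2 m).card : ℝ))) * ((Pset 2 m).card : ℝ) =
      ∑ p ∈ Pset 2 m, gl p + 4 * B * θ * (Pset 2 m).card + 4 * B * ∑ p ∈ Pset 2 m, ex p := by
    field_simp
  rw [s5]
  have s6 : 0 ≤ B * ∑ p ∈ Pset 2 m, ex p := mul_nonneg hB s4
  linarith

end Pool.Agent.H26.X.XCI

theorem Pool.Agent.H26.X.pf_XCI (h1 : Pool.Agent.H28.LF.T_DVS) (h2 : Pool.Agent.H28.LF.T_THC) :
    Pool.Agent.H83.X.T_XCI := Pool.Agent.H26.X.XCI.pf h1 h2
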