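import Pool.Agent.H83.X.T3

/-!
Theorem X, row XJN: from one window length to all window lengths (Jensen).
-/

set_option autoImplicit false

open MeasureTheory ProbabilityTheory Filter Topology Finset
open scoped Nat ENNReal

namespace Pool.Agent.H26.X.XJN

open Pool.Agent.H83.X
open Pool.Agent.H83.V (vl fz)

theorem fz_abs (z : Bool) (n : ℕ) : |((fz z n : ℤ) : ℝ)| ≤ 1 := by
  unfold fz vl
  split_ifs <;> simp

/-- the products -/
noncomputable def bb (z : Bool) (h j : ℕ) : ℝ := ((fz z (j + 1) * fz z (j + 1 + h) : ℤ) : ℝ)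

theorem bb_abs (z : Bool) (h j : ℕ) : |bb z h j| ≤ 1 := by
  unfold bb
  push_cast
  rw [abs_mul]
  exact mul_le_one₀ (fz_abs z _) (abs_nonneg _) (fz_abs z _)

theorem aH_eq (z : Bool) (h H n : ℕ) : aH z h H n = (∑ j ∈ range H, bb z h (n + j)) / H := rfl

theorem sum_abs_le {b : ℕ → ℝ} (hb : ∀ j, |b j| ≤ 1) (H n : ℕ) :
    |∑ j ∈ range H, b (n + j)| ≤ H := by
  refine (abs_sum_le_sum_abs _ _).trans ?_
  refine (sum_le_sum fun j _ => hb (n + j)).trans ?_
  simp

theorem aH_abs (z : Bool) (h H n : ℕ) : |aH z h H n| ≤ 1 := by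
  rw [aH_eq, abs_div, Nat.abs_cast]
  exact div_le_one_of_le₀ (sum_abs_le (bb_abs z h) H n) (Nat.cast_nonneg _)

/-- shifting a sum -/
theorem shift_le {b : ℕ → ℝ} {B : ℝ} (hb : ∀ j, |b j| ≤ B) (H n i : ℕ) :
    |∑ j ∈ range H, b (n + j + i) - ∑ j ∈ range H, b (n + j)| ≤ 2 * B * i := by
  induction i with
  | zero => simp
  | succ i ih =>
    have h1 : ∑ j ∈ range H, b (n + j + (i + 1)) =
        ∑ j ∈ range H, b (n + j + i) + b (n + H + i) - b (n + i) := by
      have e1 : ∑ j ∈ range (H + 1), b (n + j + i) = ∑ j ∈ range H, b (n + j + i) + b (n + H + i) :=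
        sum_range_succ _ _
      have e2 : ∑ j ∈ range (H + 1), b (n + j + i) =
          ∑ j ∈ range H, b (n + (j + 1) + i) + b (n + 0 + i) := sum_range_succ' _ _
      have e3 : ∑ j ∈ range H, b (n + (j + 1) + i) = ∑ j ∈ range H, b (n + j + (i + 1)) :=
        sum_congr rfl fun j _ => by congr 1; ring
      rw [e3, add_zero] at e2
      linarith
    rw [h1]
    have a1 := abs_le.1 (hb (n + H + i))
    have a2 := abs_le.1 (hb (n + i))
    have a3 := abs_le.1 ih
    push_cast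
    rw [abs_le]
    constructor <;> nlinarith

/-- the double average -/
theorem dbl_le {b : ℕ → ℝ} (hb : ∀ j, |b j| ≤ 1) (H K n : ℕ) (hH : 0 < H) (hK : 0 < K) :
    |(∑ j ∈ range H, b (n + j)) / H - (∑ i ∈ range H, (∑ j ∈ range K, b (n + i + j)) / K) / H| ≤
      2 * K / H := by
  have hH' : (0 : ℝ) < H := by exact_mod_cast hH
  have hK' : (0 : ℝ) < K := by exact_mod_cast hK
  have e1 : ∑ i ∈ range H, (∑ j ∈ range K, b (n + i + j)) / K =
      (∑ j ∈ range K, ∑ i ∈ range H, b (n + i + j)) / K := by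
    rw [← sum_div, sum_comm]
  have e2 : (∑ j ∈ range H, b (n + j)) =
      (∑ j ∈ range K, ∑ i ∈ range H, b (n + i)) / K := by
    rw [sum_const, card_range, nsmul_eq_mul]
    field_simp
  rw [e1]
  nth_rewrite 1 [e2]
  rw [← sub_div, ← sub_div, ← sum_sub_distrib, abs_div, abs_div, Nat.abs_cast, Nat.abs_cast]
  have e3 : |∑ j ∈ range K, (∑ i ∈ range H, b (n + i) - ∑ i ∈ range H, b (n + i + j))| ≤
      ∑ j ∈ range K, (2 * K : ℝ) := by
    refine (abs_sum_le_sum_abs _ _).trans (sum_le_sum fun j hj => ?_)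
    rw [abs_sub_comm]
    refine (shift_le hb H n j).trans ?_
    have : (j : ℝ) ≤ K := by exact_mod_cast (mem_range.1 hj).le
    linarith
  rw [sum_const, card_range, nsmul_eq_mul] at e3
  rw [div_div, div_le_div_iff₀ (by positivity) hH']
  nlinarith

/-- the harmonic sum -/
theorem harm_le {x z : ℕ} (hx : 0 < x) (hz : x ≤ z) :
    ∑ N ∈ Icc x z, (1 : ℝ) / N ≤ 1 + Real.log ((z : ℝ) / x) := by
  induction z, hz using Nat.le_induction with
  | base =>
    have hx' : (0 : ℝ) < x := by exact_mod_cast hx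
    rw [Icc_self, sum_singleton, div_self hx'.ne', Real.log_one, add_zero, div_le_one hx']
    exact_mod_cast hx
  | succ z hz ih =>
    have hx' : (0 : ℝ) < x := by exact_mod_cast hx
    have hz' : (0 : ℝ) < z := by exact_mod_cast lt_of_lt_of_le hx hz
    rw [Finset.sum_Icc_succ_top (by omega)]
    have h1 : Real.log (((z + 1 : ℕ) : ℝ) / x) = Real.log ((z : ℝ) / x) +
        Real.log (((z : ℝ) + 1) / z) := by
      rw [← Real.log_mul (by positivity) (by positivity)]
      congr 1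
      push_cast
      field_simp
    have h2 : 1 / ((z : ℝ) + 1) ≤ Real.log (((z : ℝ) + 1) / z) := by
      have := Real.one_sub_inv_le_log_of_pos (x := ((z : ℝ) + 1) / z) (by positivity)
      refine le_trans (le_of_eq ?_) this
      field_simp
      ring
    rw [h1]
    push_cast
    linarith

theorem lip {Φ : ℝ → ℝ} (hΦ : ConvexOn ℝ Set.univ Φ) :
    ∃ Lam B : ℝ, 0 < Lam ∧ 0 < B ∧ (∀ t, |t| ≤ 1 → |Φ t| ≤ B) ∧
      ∀ s t, |s| ≤ 1 → |t| ≤ 1 → |Φ s - Φ t| ≤ Lam * |s - t| := by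
  have hc : Continuous Φ := by
    have := hΦ.continuousOn_interior
    rw [interior_univ] at this
    exact continuousOn_univ.1 this
  obtain ⟨M, hM⟩ := (isCompact_closedBall (0 : ℝ) 2).exists_bound_of_continuousOn hc.continuousOn
  have hM' : ∀ a, dist a (0 : ℝ) < 2 → |Φ a| ≤ max M 1 := fun a ha =>
    (hM a (by rw [Metric.mem_closedBall]; exact ha.le)).trans (le_max_left _ _)
  have hl := ConvexOn.lipschitzOnWith_of_abs_le (x₀ := (0 : ℝ)) (r := 2) (ε := 1 / 2)
    (hΦ.subset (Set.subset_univ _) (convex_ball _ _)) (by norm_num) hM'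
  refine ⟨max (2 * max M 1 / (1 / 2)) 1, max M 1, lt_of_lt_of_le one_pos (le_max_right _ _),
    lt_of_lt_of_le one_pos (le_max_right _ _), fun t ht => hM' t ?_, fun s t hs ht => ?_⟩
  · rw [Real.dist_eq, sub_zero]
    linarith
  · have m1 : ∀ u : ℝ, |u| ≤ 1 → u ∈ Metric.ball (0 : ℝ) (2 - 1 / 2) := fun u hu => by
      rw [Metric.mem_ball, Real.dist_eq, sub_zero]
      linarith
    have := hl.dist_le_mul s (m1 s hs) t (m1 t ht)
    rw [Real.dist_eq, Real.dist_eq] at this
    refine this.trans (mul_le_mul_of_nonneg_right ?_ (abs_nonneg _))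
    rw [Real.coe_toNNReal']
    exact max_le_max le_rfl zero_le_one

theorem pf : T_XJN := by
  intro z h Φ δ hΦ hcore ε ρ hε hρ
  obtain ⟨Lam, B, hLam, hB, hbd, hlip⟩ := lip hΦ
  obtain ⟨K₁, C₁, hK₁, hC⟩ := hcore (ε / 2) (ρ / 2) (by positivity) (by positivity)
  have hK₁' : (0 : ℝ) < K₁ := by exact_mod_cast hK₁
  -- constants
  obtain ⟨C₂, hC₂⟩ := exists_nat_ge (8 * B / ε)
  obtain ⟨K', hK'⟩ := exists_nat_ge (8 * Lam * K₁ / ε)
  obtain ⟨K'', hK''⟩ := exists_nat_ge (Real.exp ((2 + Real.log (C₂ + 1)) / (ρ / 2)))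
  refine ⟨max (max K' K'') (max C₁ (max 1 (C₂ + 1))), fun H x y hH hHx hxy => ?_⟩
  set K := max (max K' K'') (max C₁ (max 1 (C₂ + 1))) with hKdef
  have k1 : K' ≤ K := (le_max_left _ _).trans (le_max_left _ _)
  have k2 : K'' ≤ K := (le_max_right _ _).trans (le_max_left _ _)
  have k3 : C₁ ≤ K := (le_max_left _ _).trans (le_max_right _ _)
  have k4 : 1 ≤ K := (le_max_left _ _).trans ((le_max_right _ _).trans (le_max_right _ _))
  have k5 : C₂ + 1 ≤ K := (le_max_right _ _).trans ((le_max_right _ _).trans (le_max_right _ _))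
  have hH0 : 0 < H := lt_of_lt_of_le k4 hH
  have hx0 : 0 < x := lt_of_lt_of_le hH0 hHx
  have hH' : (0 : ℝ) < H := by exact_mod_cast hH0
  have hx' : (0 : ℝ) < x := by exact_mod_cast hx0
  have hcx : C₁ * x ≤ y := (Nat.mul_le_mul_right x k3).trans hxy
  -- pointwise comparison
  have hpt : ∀ n, Φ (aH z h H n) ≤ (∑ i ∈ range H, Φ (aH z h K₁ (n + i))) / H +
      Lam * (2 * K₁ / H) := by
    intro n
    set A : ℝ := (∑ i ∈ range H, aH z h K₁ (n + i)) / H with hA
    have a1 : |aH z h H n - A| ≤ 2 * K₁ / H := by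
      have := dbl_le (bb_abs z h) H K₁ n hH0 hK₁
      rw [hA, aH_eq]
      simpa only [aH_eq] using this
    have a2 : |A| ≤ 1 := by
      rw [hA, abs_div, Nat.abs_cast]
      refine div_le_one_of_le₀ ?_ hH'.le
      refine (abs_sum_le_sum_abs _ _).trans ?_
      refine (sum_le_sum fun i _ => aH_abs z h K₁ (n + i)).trans ?_
      simp
    have a3 := hlip _ _ (aH_abs z h H n) a2
    have a4 : Φ A ≤ (∑ i ∈ range H, Φ (aH z h K₁ (n + i))) / H := by
      have := hΦ.map_sum_le (t := range H) (w := fun _ => (1 : ℝ) / H)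
        (p := fun i => aH z h K₁ (n + i)) (fun i _ => by positivity)
        (by rw [sum_const, card_range, nsmul_eq_mul]; field_simp) (fun i _ => Set.mem_univ _)
      simp only [smul_eq_mul] at this
      rw [← mul_sum, ← mul_sum] at this
      rw [hA]
      calc Φ ((∑ i ∈ range H, aH z h K₁ (n + i)) / H)
          = Φ (1 / H * ∑ i ∈ range H, aH z h K₁ (n + i)) := by congr 1; ring
        _ ≤ _ := this
        _ = _ := by ring
    have a5 := (abs_le.1 a3).2
    have a6 : Lam * |aH z h H n - A| ≤ Lam * (2 * K₁ / H) :=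
      mul_le_mul_of_nonneg_left a1 hLam.le
    linarith
  -- averages
  have hav : ∀ N : ℕ, 0 < N → mH z h Φ H N ≤ mH z h Φ K₁ N + 2 * B * H / N +
      Lam * (2 * K₁ / H) := by
    intro N hN
    have hN' : (0 : ℝ) < N := by exact_mod_cast hN
    have b0 : ∀ g : ℕ → ℝ, ∑ n ∈ Icc 1 N, g n = ∑ j ∈ range N, g (1 + j) := by
      intro g
      have := Finset.sum_Ico_eq_sum_range g 1 (N + 1)
      rw [Nat.add_sub_cancel] at this
      rw [← this]
      rfl
    have b1 : ∑ n ∈ Icc 1 N, Φ (aH z h H n) ≤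
        ∑ n ∈ Icc 1 N, ((∑ i ∈ range H, Φ (aH z h K₁ (n + i))) / H + Lam * (2 * K₁ / H)) :=
      sum_le_sum fun n _ => hpt n
    have b2 : ∑ n ∈ Icc 1 N, ((∑ i ∈ range H, Φ (aH z h K₁ (n + i))) / H +
        Lam * (2 * K₁ / H)) = (∑ i ∈ range H, ∑ n ∈ Icc 1 N, Φ (aH z h K₁ (n + i))) / H +
        N * (Lam * (2 * K₁ / H)) := by
      rw [sum_add_distrib, ← sum_div, sum_comm, sum_const, Nat.card_Icc, nsmul_eq_mul]
      simp
    have b3 : ∀ i ∈ range H, ∑ n ∈ Icc 1 N, Φ (aH z h K₁ (n + i)) ≤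
        ∑ n ∈ Icc 1 N, Φ (aH z h K₁ n) + 2 * B * H := by
      intro i hi
      rw [b0, b0]
      have := shift_le (b := fun n => Φ (aH z h K₁ n)) (B := B)
        (fun j => hbd _ (aH_abs z h K₁ j)) N 1 i
      have c1 := (abs_le.1 this).2
      have c2 : (i : ℝ) ≤ H := by exact_mod_cast (mem_range.1 hi).le
      have c3 : 2 * B * i ≤ 2 * B * H := mul_le_mul_of_nonneg_left c2 (by positivity)
      linarith
    have b4 := sum_le_sum b3
    rw [sum_const, card_range, nsmul_eq_mul] at b4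
    have b5 : (∑ i ∈ range H, ∑ n ∈ Icc 1 N, Φ (aH z h K₁ (n + i))) / H ≤
        ∑ n ∈ Icc 1 N, Φ (aH z h K₁ n) + 2 * B * H := by
      rw [div_le_iff₀ hH']
      linarith
    unfold mH
    have b6 : ∑ n ∈ Icc 1 N, Φ (aH z h H n) ≤ ∑ n ∈ Icc 1 N, Φ (aH z h K₁ n) + 2 * B * H +
        N * (Lam * (2 * K₁ / H)) := by linarith
    have b7 := div_le_div_of_nonneg_right b6 hN'.le
    refine b7.trans (le_of_eq ?_)
    field_simp
  -- the two parts
  have hsub : (Icc x y).filter (fun N => cU Φ δ + ε < mH z h Φ H N) ⊆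
      ((Icc x y).filter (fun N => cU Φ δ + ε / 2 < mH z h Φ K₁ N)) ∪
        Icc x ((C₂ + 1) * x) := by
    intro N hN
    rw [mem_filter, mem_Icc] at hN
    obtain ⟨⟨n1, n2⟩, n3⟩ := hN
    rw [mem_union, mem_filter, mem_Icc, mem_Icc]
    by_cases hc : N ≤ (C₂ + 1) * x
    · exact Or.inr ⟨n1, hc⟩
    · refine Or.inl ⟨⟨n1, n2⟩, ?_⟩
      push Not at hc
      have hN0 : 0 < N := lt_of_lt_of_le hx0 n1
      have hN' : (0 : ℝ) < N := by exact_mod_cast hN0
      have d1 := hav N hN0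
      have d2 : 2 * B * H / N ≤ ε / 4 := by
        rw [div_le_iff₀ hN']
        have e1 : ((C₂ + 1) * x : ℝ) ≤ N := by exact_mod_cast hc.le
        have e2 : (H : ℝ) ≤ x := by exact_mod_cast hHx
        have e3 : 8 * B ≤ C₂ * ε := by rwa [div_le_iff₀ hε] at hC₂
        have e4 : (C₂ : ℝ) * x ≤ N := by nlinarith
        have e5 : 8 * B * H ≤ C₂ * ε * x := by
          have := mul_le_mul e3 e2 hH'.le (by positivity)
          linarith
        nlinarith
      have d3 : Lam * (2 * K₁ / H) ≤ ε / 4 := by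
        have e1 : (K' : ℝ) ≤ H := by exact_mod_cast k1.trans hH
        have e2 : 8 * Lam * K₁ ≤ H * ε := by
          have := hK'.trans e1
          rwa [div_le_iff₀ hε] at this
        rw [← mul_div_assoc, div_le_iff₀ hH']
        linarith
      linarith
  have hfin : ∑ N ∈ (Icc x y).filter (fun N => cU Φ δ + ε < mH z h Φ H N), (1 : ℝ) / N ≤
      ∑ N ∈ (Icc x y).filter (fun N => cU Φ δ + ε / 2 < mH z h Φ K₁ N), (1 : ℝ) / N +
        ∑ N ∈ Icc x ((C₂ + 1) * x), (1 : ℝ) / N := by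
    refine (sum_le_sum_of_subset_of_nonneg hsub fun N _ _ => by positivity).trans ?_
    rw [← sum_union_inter]
    have : 0 ≤ ∑ N ∈ ((Icc x y).filter (fun N => cU Φ δ + ε / 2 < mH z h Φ K₁ N)) ∩
        Icc x ((C₂ + 1) * x), (1 : ℝ) / N := sum_nonneg fun N _ => by positivity
    linarith
  have h1 := hC x y hx0 hcx
  have h2 : ∑ N ∈ Icc x ((C₂ + 1) * x), (1 : ℝ) / N ≤ 1 + Real.log (C₂ + 1) := by
    refine (harm_le hx0 (Nat.le_mul_of_pos_left x (Nat.succ_pos _))).trans (le_of_eq ?_)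
    congr 2
    push_cast
    field_simp
  have h3 : (2 + Real.log (C₂ + 1)) ≤ ρ / 2 * Real.log ((y : ℝ) / x) := by
    have e1 : (K'' : ℝ) ≤ (y : ℝ) / x := by
      rw [le_div_iff₀ hx']
      exact_mod_cast (Nat.mul_le_mul_right x k2).trans hxy
    have e2 := Real.log_le_log (Real.exp_pos _) (hK''.trans e1)
    rw [Real.log_exp, div_le_iff₀ (by positivity)] at e2
    linarith
  linarith

end Pool.Agent.H26.X.XJN

theorem Pool.Agent.H26.X.pf_XJN : Pool.Agent.H83.X.T_XJN := Pool.Agent.H26.X.XJN.pf
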